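import Pool.Agent.H79.MC.Targets2

/-!
Polynomial space algorithms for maximum cut: sampling one element of each block (SMP).
The sample is chosen greedily (conditional expectations of a weighted quadratic potential).
-/

set_option autoImplicit false

namespace Pool.Agent.H69.MC

open Pool.Agent.H79.MC

theorem sum_blocks (f : ℕ → ℝ) (l q : ℕ) :
    ∑ v ∈ Finset.range (l * q), f v =
      ∑ t ∈ Finset.range q, ∑ r ∈ Finset.range l, f (l * t + r) := by
  induction q with
  | zero => simp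
  | succ q ih => rw [Nat.mul_succ, Finset.sum_range_add, ih, Finset.sum_range_succ]

/-- one greedy step after the other -/
theorem greedy (l : ℕ) (hl : 1 ≤ l) (U : Finset ℕ) (w : ℕ → ℝ)
    (Z : ℕ → ℕ → ℕ → ℝ) (hZ : ∀ u t, ∑ r ∈ Finset.range l, Z u t r = 0) (q : ℕ) :
    ∃ p : ℕ → ℕ, (∀ t, p t < l) ∧
      ∑ u ∈ U, w u * (∑ t ∈ Finset.range q, Z u t (p t)) ^ 2 ≤
        ∑ u ∈ U, w u * ∑ t ∈ Finset.range q, (∑ r ∈ Finset.range l, Z u t r ^ 2) / l := by
  have hl0 : (l : ℝ) ≠ 0 := by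
    have : 0 < l := hl
    exact_mod_cast this.ne'
  induction q with
  | zero => exact ⟨fun _ => 0, fun _ => hl, by simp⟩
  | succ q ih =>
    obtain ⟨p, hp, hle⟩ := ih
    obtain ⟨S, hS⟩ : ∃ S : ℕ → ℝ, S = fun u => ∑ t ∈ Finset.range q, Z u t (p t) := ⟨_, rfl⟩
    have hne : (Finset.range l).Nonempty := Finset.nonempty_range_iff.2 (by omega)
    have havg : ∑ r ∈ Finset.range l, ∑ u ∈ U, w u * (S u + Z u q r) ^ 2 ≤
        ∑ _r ∈ Finset.range l, ∑ u ∈ U, w u * (S u ^ 2 +
          (∑ r ∈ Finset.range l, Z u q r ^ 2) / l) := by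
      rw [Finset.sum_comm, Finset.sum_const, Finset.card_range, nsmul_eq_mul, Finset.mul_sum]
      refine le_of_eq (Finset.sum_congr rfl fun u _ => ?_)
      rw [← Finset.mul_sum]
      have h1 : ∑ r ∈ Finset.range l, (S u + Z u q r) ^ 2 =
          l * S u ^ 2 + ∑ r ∈ Finset.range l, Z u q r ^ 2 := by
        have h2 : ∀ r ∈ Finset.range l, (S u + Z u q r) ^ 2 =
            S u ^ 2 + 2 * S u * Z u q r + Z u q r ^ 2 := fun r _ => by ring
        rw [Finset.sum_congr rfl h2, Finset.sum_add_distrib, Finset.sum_add_distrib,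
          ← Finset.mul_sum, hZ, Finset.sum_const, Finset.card_range, nsmul_eq_mul]
        ring
      rw [h1]
      field_simp
    obtain ⟨r, hr, hr'⟩ := Finset.exists_le_of_sum_le hne havg
    refine ⟨Function.update p q r, ?_, ?_⟩
    · intro t
      rw [Function.update_apply]
      split_ifs
      · exact Finset.mem_range.1 hr
      · exact hp t
    · have h3 : ∀ u ∈ U, w u * (∑ t ∈ Finset.range (q + 1), Z u t (Function.update p q r t)) ^ 2 =
          w u * (S u + Z u q r) ^ 2 := by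
        intro u _
        rw [Finset.sum_range_succ, Function.update_self, hS]
        congr 3
        refine Finset.sum_congr rfl fun t ht => ?_
        rw [Function.update_of_ne (Finset.mem_range.1 ht).ne]
      rw [Finset.sum_congr rfl h3]
      refine hr'.trans ?_
      have h4 : ∀ u ∈ U, w u * (S u ^ 2 + (∑ r ∈ Finset.range l, Z u q r ^ 2) / l) =
          w u * (∑ t ∈ Finset.range q, Z u t (p t)) ^ 2 +
            w u * ((∑ r ∈ Finset.range l, Z u q r ^ 2) / l) := by
        intro u _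
        rw [hS]
        ring
      rw [Finset.sum_congr rfl h4, Finset.sum_add_distrib]
      have h5 : ∀ u ∈ U, w u * ∑ t ∈ Finset.range (q + 1),
          (∑ r ∈ Finset.range l, Z u t r ^ 2) / l =
          w u * (∑ t ∈ Finset.range q, (∑ r ∈ Finset.range l, Z u t r ^ 2) / l) +
            w u * ((∑ r ∈ Finset.range l, Z u q r ^ 2) / l) := by
        intro u _
        rw [Finset.sum_range_succ, mul_add]
      rw [Finset.sum_congr rfl h5, Finset.sum_add_distrib]
      linarith

theorem pf_smp : T_SMP := by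
  intro q l U c hl
  have hl0 : (0 : ℝ) < l := by
    have : 0 < l := hl
    exact_mod_cast this
  obtain ⟨σ, hσ⟩ : ∃ σ : ℕ → ℝ,
      σ = fun u => Real.sqrt (l * ∑ v ∈ Finset.range (l * q), c u v ^ 2) := ⟨_, rfl⟩
  obtain ⟨Z, hZ⟩ : ∃ Z : ℕ → ℕ → ℕ → ℝ, Z = fun u t r =>
      (∑ r' ∈ Finset.range l, c u (l * t + r')) - l * c u (l * t + r) := ⟨_, rfl⟩
  have hZ0 : ∀ u t, ∑ r ∈ Finset.range l, Z u t r = 0 := by
    intro u t
    rw [hZ]
    dsimp only
    rw [Finset.sum_sub_distrib, Finset.sum_const, Finset.card_range, nsmul_eq_mul,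
      ← Finset.mul_sum, sub_self]
  obtain ⟨p, hp, hle⟩ := greedy l hl U (fun u => (σ u)⁻¹) Z hZ0 q
  refine ⟨p, hp, ?_⟩
  have hσ0 : ∀ u, 0 ≤ σ u := by
    intro u
    rw [hσ]
    exact Real.sqrt_nonneg _
  have hσ2 : ∀ u, σ u ^ 2 = l * ∑ v ∈ Finset.range (l * q), c u v ^ 2 := by
    intro u
    rw [hσ]
    exact Real.sq_sqrt (mul_nonneg hl0.le (Finset.sum_nonneg fun v _ => sq_nonneg _))
  have hexp : ∀ u, ∑ v ∈ Finset.range (l * q), c u v -
      l * ∑ t ∈ Finset.range q, c u (l * t + p t) = ∑ t ∈ Finset.range q, Z u t (p t) := by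
    intro u
    rw [sum_blocks, hZ, Finset.mul_sum, ← Finset.sum_sub_distrib]
  -- the variances
  have hvar : ∀ u, ∑ t ∈ Finset.range q, (∑ r ∈ Finset.range l, Z u t r ^ 2) / l ≤ σ u ^ 2 := by
    intro u
    rw [hσ2, sum_blocks, Finset.mul_sum]
    refine Finset.sum_le_sum fun t _ => ?_
    rw [div_le_iff₀ hl0]
    have h1 : ∑ r ∈ Finset.range l, Z u t r ^ 2 =
        l ^ 2 * ∑ r ∈ Finset.range l, c u (l * t + r) ^ 2 -
          l * (∑ r ∈ Finset.range l, c u (l * t + r)) ^ 2 := by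
      obtain ⟨B, hB⟩ : ∃ B : ℝ, B = ∑ r ∈ Finset.range l, c u (l * t + r) := ⟨_, rfl⟩
      rw [hZ]
      dsimp only
      rw [← hB]
      have h2 : ∀ r ∈ Finset.range l, (B - l * c u (l * t + r)) ^ 2 =
          B ^ 2 - 2 * l * B * c u (l * t + r) + l ^ 2 * c u (l * t + r) ^ 2 :=
        fun r _ => by ring
      rw [Finset.sum_congr rfl h2, Finset.sum_add_distrib, Finset.sum_sub_distrib,
        ← Finset.mul_sum, ← Finset.mul_sum, ← hB, Finset.sum_const, Finset.card_range,
        nsmul_eq_mul]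
      ring
    rw [h1]
    have h3 : 0 ≤ l * (∑ r ∈ Finset.range l, c u (l * t + r)) ^ 2 := by positivity
    nlinarith
  have hsum : ∑ u ∈ U, (σ u)⁻¹ * (∑ t ∈ Finset.range q, Z u t (p t)) ^ 2 ≤ ∑ u ∈ U, σ u := by
    refine hle.trans (Finset.sum_le_sum fun u _ => ?_)
    calc (σ u)⁻¹ * ∑ t ∈ Finset.range q, (∑ r ∈ Finset.range l, Z u t r ^ 2) / l ≤
          (σ u)⁻¹ * σ u ^ 2 := mul_le_mul_of_nonneg_left (hvar u) (inv_nonneg.2 (hσ0 u))
      _ ≤ σ u := by
          rcases (hσ0 u).eq_or_lt with h | h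
          · rw [← h]; simp
          · rw [sq, inv_mul_cancel_left₀ h.ne']
  have hpt : ∀ u ∈ U, |∑ v ∈ Finset.range (l * q), c u v -
      l * ∑ t ∈ Finset.range q, c u (l * t + p t)| ≤
      ((σ u)⁻¹ * (∑ t ∈ Finset.range q, Z u t (p t)) ^ 2 + σ u) / 2 := by
    intro u _
    rw [hexp]
    rcases (hσ0 u).eq_or_lt with h | h
    · -- all entries vanish
      have h1 : ∑ v ∈ Finset.range (l * q), c u v ^ 2 = 0 := by
        have h2 := hσ2 u
        rw [← h] at h2
        have h3 : (l : ℝ) * ∑ v ∈ Finset.range (l * q), c u v ^ 2 = 0 := by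
          rw [← h2]; ring
        rcases mul_eq_zero.1 h3 with h4 | h4
        · exact absurd h4 hl0.ne'
        · exact h4
      have h2 : ∀ v ∈ Finset.range (l * q), c u v = 0 := fun v hv =>
        pow_eq_zero_iff (two_ne_zero) |>.1
          ((Finset.sum_eq_zero_iff_of_nonneg fun v _ => sq_nonneg (c u v)).1 h1 v hv)
      have h3 : ∑ t ∈ Finset.range q, Z u t (p t) = 0 := by
        rw [← hexp, Finset.sum_eq_zero h2]
        have h4 : ∑ t ∈ Finset.range q, c u (l * t + p t) = 0 := by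
          refine Finset.sum_eq_zero fun t ht => h2 _ ?_
          rw [Finset.mem_range] at ht ⊢
          have h5 := hp t
          calc l * t + p t < l * t + l := by omega
            _ = l * (t + 1) := by ring
            _ ≤ l * q := Nat.mul_le_mul_left _ ht
        rw [h4]
        ring
      rw [h3, ← h]
      simp
    · have h1 : 0 ≤ (|∑ t ∈ Finset.range q, Z u t (p t)| - σ u) ^ 2 := sq_nonneg _
      have h2 := sq_abs (∑ t ∈ Finset.range q, Z u t (p t))
      rw [← h2, le_div_iff₀ (by norm_num : (0 : ℝ) < 2)]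
      have h3 : (σ u)⁻¹ * |∑ t ∈ Finset.range q, Z u t (p t)| ^ 2 + σ u =
          (|∑ t ∈ Finset.range q, Z u t (p t)| ^ 2 + σ u ^ 2) / σ u := by
        field_simp
      rw [h3, le_div_iff₀ h]
      nlinarith
  refine (Finset.sum_le_sum hpt).trans ?_
  rw [← Finset.sum_div, Finset.sum_add_distrib]
  have h6 : ∑ u ∈ U, Real.sqrt (l * ∑ v ∈ Finset.range (l * q), c u v ^ 2) = ∑ u ∈ U, σ u := by
    rw [hσ]
  rw [h6]
  linarith

end Pool.Agent.H69.MC
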