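import Pool.Agent.H79.MC.Targets2

/-!
Polynomial space algorithms for maximum cut: graphs with few near-optimal cuts (TH1).
-/

set_option autoImplicit false

namespace Pool.Agent.H69.MC

open Pool.Agent.H79.MC

theorem adjN_le {n : ℕ} (G : SimpleGraph (Fin n)) (u v : ℕ) : adjN G u v ≤ 1 := by
  unfold adjN
  split_ifs <;> omega

/-- the exponent -/
theorem exp_le (n Γ : ℕ) (hΓ : 64 ≤ Γ) :
    (2 : ℝ) ^ (n - 2 ^ 6 * (n / Γ) + 1 + (6 + 1) * (n / Γ)) ≤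
      2 ^ 58 * (2 : ℝ) ^ ((1 - 57 / (Γ : ℝ)) * n) := by
  have hΓ0 : (0 : ℝ) < Γ := by
    have : 0 < Γ := by omega
    exact_mod_cast this
  have h1 : 64 * (n / Γ) ≤ n := by
    have h2 : Γ * (n / Γ) ≤ n := Nat.mul_div_le n Γ
    have h3 : 64 * (n / Γ) ≤ Γ * (n / Γ) := Nat.mul_le_mul_right _ hΓ
    omega
  have h2 : n < Γ * (n / Γ + 1) := by
    have := Nat.lt_mul_div_succ n (by omega : 0 < Γ)
    simpa using this
  have h3 : (n : ℝ) / Γ ≤ (n / Γ : ℕ) + 1 := by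
    rw [div_le_iff₀ hΓ0]
    have : (n : ℝ) < Γ * ((n / Γ : ℕ) + 1) := by exact_mod_cast h2
    linarith
  have h4 : ((n - 2 ^ 6 * (n / Γ) + 1 + (6 + 1) * (n / Γ) : ℕ) : ℝ) =
      n + 1 - 57 * ((n / Γ : ℕ) : ℝ) := by
    have h5 : n - 2 ^ 6 * (n / Γ) + 1 + (6 + 1) * (n / Γ) + 57 * (n / Γ) = n + 1 := by
      norm_num
      omega
    have h6 : ((n - 2 ^ 6 * (n / Γ) + 1 + (6 + 1) * (n / Γ) : ℕ) : ℝ) +
        57 * ((n / Γ : ℕ) : ℝ) = n + 1 := by exact_mod_cast h5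
    linarith
  rw [← Real.rpow_natCast 2 (n - 2 ^ 6 * (n / Γ) + 1 + (6 + 1) * (n / Γ)), h4,
    ← Real.rpow_natCast 2 58, ← Real.rpow_add (by norm_num)]
  refine Real.rpow_le_rpow_of_exponent_le (by norm_num) ?_
  push_cast
  have h7 : (1 - 57 / (Γ : ℝ)) * n = n - 57 * (n / Γ) := by ring
  rw [h7]
  linarith

theorem pf_th1 (hPRG : T_PRG) (hGOD : T_GOD) (hLNK : T_LNK) (hINP : T_INP) (_hMCB : T_MCB)
    (hMXW : T_MXW) : T_TH1 := by
  classical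
  intro η c hη hc
  obtain ⟨Γ₀, hG⟩ := hGOD η c hη hc
  obtain ⟨Γ, hΓdef⟩ : ∃ Γ : ℕ, Γ = max Γ₀ 64 := ⟨_, rfl⟩
  have hΓ0 : Γ₀ ≤ Γ := hΓdef ▸ le_max_left _ _
  have hΓ64 : 64 ≤ Γ := hΓdef ▸ le_max_right _ _
  obtain ⟨C₁, hC₁⟩ := hPRG Γ 6 (by norm_num; exact hΓ64)
  have hΓr : (0 : ℝ) < Γ := by
    have : 0 < Γ := by omega
    exact_mod_cast this
  refine ⟨57 / Γ, C₁ * 2 ^ 58, cutP Γ 6, by positivity, ?_⟩
  intro n G
  obtain ⟨hr0, ha0⟩ := hINP n G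
  obtain ⟨t, s', hrun, ht, hQ⟩ := hC₁ n (adjN G) (input G) (adjN_le G) hr0 ha0
  have hCC : C₁ ≤ C₁ * 2 ^ 58 := Nat.le_mul_of_pos_right _ (by norm_num)
  have hpow : (n + 1) ^ C₁ ≤ (n + 1) ^ (C₁ * 2 ^ 58) := Nat.pow_le_pow_right (by omega) hCC
  refine ⟨t, s', hMXW.2 _ _ _ _ _ _ (Nat.mul_le_mul hCC hpow) hrun, ?_, ?_⟩
  · have h1 : (t : ℝ) ≤ C₁ * ((n : ℝ) + 1) ^ C₁ *
        2 ^ (n - 2 ^ 6 * (n / Γ) + 1 + (6 + 1) * (n / Γ)) := by exact_mod_cast ht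
    refine h1.trans ?_
    have h2 := exp_le n Γ hΓ64
    have h3 : ((n : ℝ) + 1) ^ C₁ ≤ ((n : ℝ) + 1) ^ (C₁ * 2 ^ 58) := by exact_mod_cast hpow
    calc (C₁ : ℝ) * ((n : ℝ) + 1) ^ C₁ * 2 ^ (n - 2 ^ 6 * (n / Γ) + 1 + (6 + 1) * (n / Γ)) ≤
          C₁ * ((n : ℝ) + 1) ^ (C₁ * 2 ^ 58) * (2 ^ 58 * (2 : ℝ) ^ ((1 - 57 / (Γ : ℝ)) * n)) := by
          gcongr
      _ = _ := by push_cast; ring
  · intro hF
    rcases Nat.eq_zero_or_pos n with hn | hn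
    · subst hn
      intro Y
      have : Y = output 0 s' := Subsingleton.elim _ _
      rw [this]
    · have hgood := hG Γ hΓ0 hΓ64 n G hn hF
      obtain ⟨hle, hmin⟩ := hQ hgood
      intro Y
      obtain ⟨y, hy⟩ : ∃ y : ℕ → ℕ, y = fun v => if ∃ h : v < n, (⟨v, h⟩ : Fin n) ∈ Y then 1 else 0 :=
        ⟨_, rfl⟩
      have hy1 : ∀ v < n, y v ≤ 1 := by
        intro v _
        rw [hy]
        dsimp only
        split_ifs <;> omega
      have hset : {v : Fin n | y v ≠ 0} = Y := by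
        ext v
        rw [hy]
        simp only [Set.mem_setOf_eq]
        constructor
        · intro h
          by_contra hv
          apply h
          rw [if_neg]
          rintro ⟨h1, h2⟩
          exact hv h2
        · intro h
          rw [if_pos ⟨v.2, h⟩]
          exact one_ne_zero
      have h1 := hLNK n G y hy1
      have h2 := hLNK n G (s'.a 1) hle
      have h3 := hmin y hy1
      rw [hset] at h1
      have h4 : output n s' = {v : Fin n | s'.a 1 v ≠ 0} := rfl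
      rw [h4]
      omega

end Pool.Agent.H69.MC
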